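import Mathlib

/-!
Counting the `n` with `2 n! = m (m + 1)`.
-/

namespace Pool.Agent.Lib.MP_bd329d_nt

open Finset

/-- weight of a prime in `G` -/
noncomputable def wt (G p : ℕ) : ℝ := G.factorization p * Real.log p

/-- sign of a prime, normalised at `2` -/
noncomputable def sg (m p : ℕ) : ℝ := if (p ∣ m ↔ 2 ∣ m) then 1 else -1

theorem wt_nonneg (G p : ℕ) : 0 ≤ wt G p :=
  mul_nonneg (Nat.cast_nonneg _) (Real.log_natCast_nonneg _)

theorem log_part (G : ℕ) (T : Finset ℕ) (hT : T ⊆ G.primeFactors) :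
    Real.log ((∏ p ∈ T, p ^ G.factorization p : ℕ) : ℝ) = ∑ p ∈ T, wt G p := by
  rw [Nat.cast_prod, Real.log_prod]
  · exact sum_congr rfl fun p _ => by rw [Nat.cast_pow, Real.log_pow, wt]
  · intro p hp
    have := (Nat.prime_of_mem_primeFactors (hT hp)).pos
    positivity

theorem sum_wt {G : ℕ} (hG : G ≠ 0) : ∑ p ∈ G.primeFactors, wt G p = Real.log G := by
  rw [← log_part G _ subset_rfl]
  congr 2
  exact Nat.prod_factorization_pow_eq_self hG

theorem part_dvd (G : ℕ) (T : Finset ℕ) (hT : T ⊆ G.primeFactors) (z : ℕ)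
    (h : ∀ p ∈ T, p ^ G.factorization p ∣ z) : (∏ p ∈ T, p ^ G.factorization p) ∣ z := by
  refine Finset.prod_dvd_of_isRelPrime (fun p hp q hq hpq => ?_) h
  exact Nat.coprime_iff_isRelPrime.1 (Nat.Coprime.pow _ _ ((Nat.coprime_primes
    (Nat.prime_of_mem_primeFactors (hT hp)) (Nat.prime_of_mem_primeFactors (hT hq))).2 hpq))

theorem pow_dvd_or {p k m : ℕ} (hp : p.Prime) (h : p ^ k ∣ m * (m + 1)) :
    (p ∣ m → p ^ k ∣ m) ∧ (¬ p ∣ m → p ^ k ∣ m + 1) := by
  constructor
  · intro hm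
    refine Nat.Coprime.dvd_of_dvd_mul_right (Nat.Coprime.pow_left _ ?_) h
    rw [hp.coprime_iff_not_dvd]
    intro h1
    exact hp.one_lt.ne' (Nat.dvd_one.1 ((Nat.dvd_add_right hm).1 h1))
  · intro hm
    exact Nat.Coprime.dvd_of_dvd_mul_left (Nat.Coprime.pow_left _ (hp.coprime_iff_not_dvd.2 hm)) h

/-- near orthogonality of the sign vectors of two different solutions -/
theorem pair_le {G E m m' : ℕ} (hG : G ≠ 0) (hlt : m < m') (h1 : G ∣ m * (m + 1))
    (h2 : G ∣ m' * (m' + 1)) (h3 : m' * (m' + 1) ≤ G * E) :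
    ∑ p ∈ G.primeFactors, wt G p * (sg m p * sg m' p) ≤ Real.log (4 * E) := by
  classical
  set T := G.primeFactors.filter fun p => ((p ∣ m ↔ 2 ∣ m) ↔ (p ∣ m' ↔ 2 ∣ m')) with hT
  have hsub : T ⊆ G.primeFactors := filter_subset _ _
  have e1 : ∑ p ∈ G.primeFactors, wt G p * (sg m p * sg m' p) =
      2 * ∑ p ∈ T, wt G p - ∑ p ∈ G.primeFactors, wt G p := by
    rw [hT, sum_filter, mul_sum, ← sum_sub_distrib]
    refine sum_congr rfl fun p _ => ?_
    unfold sg
    by_cases a : (p ∣ m ↔ 2 ∣ m) <;> by_cases b : (p ∣ m' ↔ 2 ∣ m') <;> simp [a, b] <;> ring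
  have hd : ∀ p ∈ T, ((p ∣ m → p ^ G.factorization p ∣ m) ∧
      (¬ p ∣ m → p ^ G.factorization p ∣ m + 1)) ∧ ((p ∣ m' → p ^ G.factorization p ∣ m') ∧
      (¬ p ∣ m' → p ^ G.factorization p ∣ m' + 1)) := fun p hp =>
    ⟨pow_dvd_or (Nat.prime_of_mem_primeFactors (hsub hp)) ((Nat.ordProj_dvd G p).trans h1),
      pow_dvd_or (Nat.prime_of_mem_primeFactors (hsub hp)) ((Nat.ordProj_dvd G p).trans h2)⟩
  have hA : (∏ p ∈ T, p ^ G.factorization p) ≤ 2 * m' := by
    by_cases h : (2 ∣ m ↔ 2 ∣ m')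
    · refine (Nat.le_of_dvd (show 0 < m' - m by omega) (part_dvd G T hsub _ fun p hp => ?_)).trans
        (by omega)
      have h4 := (mem_filter.1 hp).2
      by_cases a : p ∣ m
      · exact Nat.dvd_sub ((hd p hp).2.1 (by tauto)) ((hd p hp).1.1 a)
      · have := Nat.dvd_sub ((hd p hp).2.2 (by tauto)) ((hd p hp).1.2 a)
        rwa [Nat.add_sub_add_right] at this
    · refine (Nat.le_of_dvd (show 0 < m + (m' + 1) by omega)
        (part_dvd G T hsub _ fun p hp => ?_)).trans (by omega)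
      have h4 := (mem_filter.1 hp).2
      by_cases a : p ∣ m
      · exact dvd_add ((hd p hp).1.1 a) ((hd p hp).2.2 (by tauto))
      · have := dvd_add ((hd p hp).1.2 a) ((hd p hp).2.1 (by tauto))
        rwa [show m + 1 + m' = m + (m' + 1) by ring] at this
  rw [e1, sum_wt hG, ← log_part G T hsub]
  set A := ∏ p ∈ T, p ^ G.factorization p
  have hA0 : 0 < A := prod_pos fun p hp => pow_pos (Nat.prime_of_mem_primeFactors (hsub hp)).pos _
  have hE : 0 < E := by
    rcases Nat.eq_zero_or_pos E with rfl | h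
    · have : 0 < m' * (m' + 1) := Nat.mul_pos (by omega) (by omega)
      omega
    · exact h
  have h5 : A * A ≤ 4 * E * G := by nlinarith
  have h6 : ((A : ℝ)) * A ≤ 4 * E * G := by exact_mod_cast h5
  have hG' : (0 : ℝ) < G := by exact_mod_cast Nat.pos_of_ne_zero hG
  have hA' : (0 : ℝ) < A := by exact_mod_cast hA0
  have hE' : (0 : ℝ) < E := by exact_mod_cast hE
  have := Real.log_le_log (by positivity) h6
  rw [Real.log_mul hA'.ne' hA'.ne', Real.log_mul (by positivity) hG'.ne'] at this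
  linarith

/-- the Plotkin-type bound -/
theorem gram {G E : ℕ} (hG : G ≠ 0) (h2 : 2 ∣ G) (hE : 1 ≤ E) (M : Finset ℕ)
    (h1 : ∀ m ∈ M, G ∣ m * (m + 1)) (h3 : ∀ m ∈ M, m * (m + 1) ≤ G * E) :
    (M.card : ℝ) * (wt G 2 - Real.log (4 * E)) ≤ Real.log G := by
  classical
  have hη : 0 ≤ Real.log (4 * E) := Real.log_nonneg (by
    have : (1 : ℝ) ≤ E := by exact_mod_cast hE
    linarith)
  have hW : 0 ≤ Real.log G := Real.log_natCast_nonneg _
  have low : wt G 2 * (M.card : ℝ) ^ 2 ≤ ∑ p ∈ G.primeFactors, wt G p * (∑ m ∈ M, sg m p) ^ 2 := by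
    have := single_le_sum (f := fun p => wt G p * (∑ m ∈ M, sg m p) ^ 2)
      (fun p _ => mul_nonneg (wt_nonneg G p) (sq_nonneg _))
      (Nat.mem_primeFactors.2 ⟨Nat.prime_two, h2, hG⟩)
    simpa [sg] using this
  have up : ∑ p ∈ G.primeFactors, wt G p * (∑ m ∈ M, sg m p) ^ 2 ≤
      M.card * (Real.log G + M.card * Real.log (4 * E)) := by
    have e : ∑ p ∈ G.primeFactors, wt G p * (∑ m ∈ M, sg m p) ^ 2 =
        ∑ m ∈ M, ∑ m' ∈ M, ∑ p ∈ G.primeFactors, wt G p * (sg m p * sg m' p) := by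
      simp only [sq, sum_mul_sum]
      simp only [mul_sum]
      rw [sum_comm]
      exact sum_congr rfl fun m _ => sum_comm
    rw [e, ← nsmul_eq_mul, ← sum_const]
    refine sum_le_sum fun m hm => ?_
    have : ∀ m' ∈ M, ∑ p ∈ G.primeFactors, wt G p * (sg m p * sg m' p) ≤
        (if m' = m then Real.log G else 0) + Real.log (4 * E) := by
      intro m' hm'
      rcases lt_trichotomy m m' with h | rfl | h
      · rw [if_neg h.ne', zero_add]
        exact pair_le hG h (h1 m hm) (h1 m' hm') (h3 m' hm')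
      · have : ∀ p, sg m p * sg m p = 1 := fun p => by unfold sg; split_ifs <;> norm_num
        simp only [this, mul_one, sum_wt hG, if_true]
        linarith
      · rw [if_neg h.ne, zero_add]
        simpa only [mul_comm (sg m _)] using pair_le hG h (h1 m' hm') (h1 m hm) (h3 m hm)
    refine (sum_le_sum this).trans (le_of_eq ?_)
    rw [sum_add_distrib, sum_ite_eq' M m, if_pos hm, sum_const, nsmul_eq_mul]
  rcases Nat.eq_zero_or_pos M.card with h | h
  · simpa [h] using hW
  · have h' : (0 : ℝ) < M.card := by exact_mod_cast h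
    have := low.trans up
    nlinarith

theorem fact_add_le (N k : ℕ) : (N + k).factorial ≤ N.factorial * (N + k) ^ k := by
  induction k with
  | zero => simp
  | succ k ih =>
    rw [← add_assoc, Nat.factorial_succ, pow_succ]
    calc (N + k + 1) * (N + k).factorial ≤ (N + k + 1) * (N.factorial * (N + k + 1) ^ k) :=
          Nat.mul_le_mul_left _ (ih.trans (Nat.mul_le_mul_left _
            (Nat.pow_le_pow_left (Nat.le_succ _) _)))
      _ = _ := by ring

theorem two_pow_dvd (k : ℕ) : 2 ^ k ∣ (2 * k).factorial := by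
  induction k with
  | zero => simp
  | succ k ih =>
    rw [show 2 * (k + 1) = 2 * k + 1 + 1 by ring, Nat.factorial_succ, Nat.factorial_succ, pow_succ']
    exact mul_dvd_mul ⟨k + 1, by ring⟩ (Dvd.dvd.mul_left ih _)

/-- `n!` is triangular -/
def Sol (n : ℕ) : Prop := ∃ m : ℕ, 2 * n.factorial = m * (m + 1)

/-- few solutions in a short interval -/
theorem short {N β L : ℕ} (hN : 16 ≤ N) (hL : 2 * N ≤ 2 ^ L) (hβ : 8 * (β * L) ≤ N)
    (S : Finset ℕ) (hS : ∀ n ∈ S, N ≤ n ∧ n ≤ N + β ∧ Sol n) : S.card ≤ 4 * L + 1 := by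
  classical
  have hL1 : 1 ≤ L := by
    rcases Nat.eq_zero_or_pos L with rfl | h
    · simp at hL; omega
    · exact h
  have hβN : β ≤ N := by nlinarith
  choose! f hf using fun n (hn : n ∈ S) => (hS n hn).2.2
  have hinj : Set.InjOn f S := fun a ha b hb e => by
    have h1 := hf a ha
    have h2 := hf b hb
    rw [e, ← h2] at h1
    exact (Nat.factorial_inj (by have := (hS a ha).1; omega)).1 (by omega)
  have hG : 2 * N.factorial ≠ 0 := by positivity
  have key := gram (G := 2 * N.factorial) (E := 2 ^ (β * L)) hG ⟨_, rfl⟩ Nat.one_le_two_pow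
    (S.image f) (fun m hm => by
      obtain ⟨n, hn, rfl⟩ := mem_image.1 hm
      rw [← hf n hn]
      exact Nat.mul_dvd_mul_left _ (Nat.factorial_dvd_factorial (hS n hn).1)) (fun m hm => by
      obtain ⟨n, hn, rfl⟩ := mem_image.1 hm
      rw [← hf n hn, mul_assoc]
      refine Nat.mul_le_mul_left _ ((Nat.factorial_le (hS n hn).2.1).trans
        ((fact_add_le N β).trans (Nat.mul_le_mul_left _ ?_)))
      rw [mul_comm β, pow_mul]
      exact Nat.pow_le_pow_left (by omega) _)
  rw [card_image_of_injOn hinj] at key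
  have l2 : 0 < Real.log 2 := Real.log_pos (by norm_num)
  have hv : N / 2 + 1 ≤ (2 * N.factorial).factorization 2 := by
    rw [← Nat.prime_two.pow_dvd_iff_le_factorization hG, pow_succ']
    exact Nat.mul_dvd_mul_left _ ((two_pow_dvd _).trans
      (Nat.factorial_dvd_factorial (Nat.mul_div_le N 2)))
  have hw : (N : ℝ) / 2 * Real.log 2 ≤ wt (2 * N.factorial) 2 := by
    unfold wt
    refine mul_le_mul_of_nonneg_right ?_ (by simpa using l2.le)
    have : N ≤ 2 * (2 * N.factorial).factorization 2 := by omega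
    have : (N : ℝ) ≤ 2 * ((2 * N.factorial).factorization 2 : ℕ) := by exact_mod_cast this
    linarith
  have hη : Real.log (4 * ((2 ^ (β * L) : ℕ) : ℝ)) ≤ (N : ℝ) / 4 * Real.log 2 := by
    have e : (4 * ((2 ^ (β * L) : ℕ) : ℝ)) = 2 ^ (β * L + 2) := by push_cast; ring
    rw [e, Real.log_pow]
    refine mul_le_mul_of_nonneg_right ?_ l2.le
    have : 4 * (β * L + 2) ≤ N := by omega
    have : (4 : ℝ) * ((β * L + 2 : ℕ) : ℝ) ≤ N := by exact_mod_cast this
    linarith
  have hW : Real.log ((2 * N.factorial : ℕ) : ℝ) ≤ (N * L : ℝ) * Real.log 2 := by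
    have h1 : 2 * N.factorial ≤ 2 ^ (N * L) := by
      calc 2 * N.factorial ≤ 2 ^ N * N ^ N :=
            Nat.mul_le_mul (Nat.le_self_pow (by omega) 2) N.factorial_le_pow
        _ = (2 * N) ^ N := by rw [mul_pow]
        _ ≤ (2 ^ L) ^ N := Nat.pow_le_pow_left hL _
        _ = _ := by rw [← pow_mul, mul_comm]
    have h2 : ((2 * N.factorial : ℕ) : ℝ) ≤ 2 ^ (N * L) := by exact_mod_cast h1
    have := Real.log_le_log (by exact_mod_cast Nat.pos_of_ne_zero hG) h2
    rwa [Real.log_pow, Nat.cast_mul N L] at this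
  have hN' : (0 : ℝ) < N := by exact_mod_cast (by omega : 0 < N)
  have h1 : (S.card : ℝ) * (N / 4 * Real.log 2) ≤ N * L * Real.log 2 :=
    (mul_le_mul_of_nonneg_left (by linarith) (Nat.cast_nonneg _)).trans (key.trans hW)
  have h2 : (S.card : ℝ) ≤ 4 * L := by
    by_contra h
    have : 0 < (N : ℝ) * Real.log 2 := by positivity
    nlinarith
  have : S.card ≤ 4 * L := by exact_mod_cast h2
  omega

theorem dyadic {k : ℕ} (hk : 4 ≤ k) (S : Finset ℕ)
    (hS : ∀ n ∈ S, 2 ^ k ≤ n ∧ n < 2 ^ (k + 1) ∧ Sol n) :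
    S.card ≤ (4 * (k + 2) + 1) * (8 * (k + 2)) := by
  classical
  obtain ⟨β, hβ⟩ : ∃ β, β = 2 ^ k / (8 * (k + 2)) := ⟨_, rfl⟩
  have h16 : 16 ≤ 2 ^ k := (Nat.pow_le_pow_right (by norm_num) hk : 2 ^ 4 ≤ 2 ^ k)
  have hb1 : 8 * (β * (k + 2)) ≤ 2 ^ k := by
    have := Nat.mul_div_le (2 ^ k) (8 * (k + 2))
    rw [← hβ] at this
    nlinarith
  have hb2 : 2 ^ k < 8 * (k + 2) * (β + 1) := hβ ▸ Nat.lt_mul_div_succ _ (by omega)
  clear hβ
  refine (card_le_mul_card_image_of_maps_to (f := fun n => (n - 2 ^ k) / (β + 1))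
    (t := range (8 * (k + 2))) (fun n hn => ?_) (4 * (k + 2) + 1) fun j hj => ?_).trans
    (by rw [card_range])
  · have := hS n hn
    rw [mem_range, Nat.div_lt_iff_lt_mul (by omega)]
    omega
  · by_cases h0 : 2 ^ k + j * (β + 1) < 2 ^ (k + 1)
    · refine short (N := 2 ^ k + j * (β + 1)) (β := β) (L := k + 2) (by omega)
        (by rw [pow_succ 2 (k + 1)]; omega) (by omega) _ fun n hn => ?_
      obtain ⟨h1, h2⟩ := mem_filter.1 hn
      have h3 := hS n h1
      have h4 := Nat.div_add_mod (n - 2 ^ k) (β + 1)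
      have h5 := Nat.mod_lt (n - 2 ^ k) (show 0 < β + 1 by omega)
      rw [h2, mul_comm] at h4
      exact ⟨by omega, by omega, h3.2.2⟩
    · rw [filter_eq_empty_iff.2, card_empty]
      · omega
      intro n hn h2
      have h3 := hS n hn
      have h4 := Nat.div_add_mod (n - 2 ^ k) (β + 1)
      rw [h2, mul_comm] at h4
      omega

theorem total (N : ℕ) (S : Finset ℕ) (hS : ∀ n ∈ S, n ≤ N ∧ Sol n) :
    S.card ≤ 40 * (Nat.log 2 N + 2) ^ 3 := by
  classical
  set K := Nat.log 2 N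
  refine (card_le_mul_card_image_of_maps_to (f := fun n => Nat.log 2 n)
    (t := range (K + 1)) (fun n hn => ?_) (40 * (K + 2) ^ 2) fun k hk => ?_).trans ?_
  · exact mem_range.2 (Nat.lt_succ_of_le (Nat.log_mono_right (hS n hn).1))
  · have hkK : k ≤ K := Nat.lt_succ_iff.1 (mem_range.1 hk)
    by_cases h4 : 4 ≤ k
    · refine (dyadic h4 _ fun n hn => ?_).trans (by nlinarith)
      obtain ⟨h1, h2⟩ := mem_filter.1 hn
      have hn0 : n ≠ 0 := by rintro rfl; simp at h2; omega
      exact ⟨h2 ▸ Nat.pow_log_le_self 2 hn0, h2 ▸ Nat.lt_pow_succ_log_self (by norm_num) n,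
        (hS n h1).2⟩
    · refine (card_le_card (t := range 16) fun n hn => ?_).trans (by rw [card_range]; nlinarith)
      have h2 := (mem_filter.1 hn).2
      have := Nat.lt_pow_succ_log_self (b := 2) (by norm_num) n
      have h3 : 2 ^ (Nat.log 2 n + 1) ≤ 2 ^ 4 := Nat.pow_le_pow_right (by norm_num) (by omega)
      exact mem_range.2 (by omega)
  · rw [card_range]; nlinarith [Nat.zero_le ((K + 2) ^ 2)]

end Pool.Agent.Lib.MP_bd329d_nt
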